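import Pool.Agent.V7H14.BN.Main
import Pool.Agent.N542.PT.Main
import Pool.Agent.N542.PB.GenPoly

set_option autoImplicit false

/-!
# Record prime gaps around noncomposite polynomials in the integral parts of smooth functions of a prime number

Let `R(Z) = log Z (log₂ Z)² log₄ Z / (log₃ Z)²`, the size of the largest gaps between consecutive primes that are
known to occur up to `Z`. Let `F_1, …, F_k` be polynomials in `n ≥ 2` variables with integer coefficients such that
every `F_j` has a translate `F_j - c` (`c` a complex number) which is irreducible over the complex numbers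
(equivalently, `F_j` is noncomposite) and no two of the `F_j` are linearly dependent modulo the constants.

Let `f_1, …, f_r` be smoothly varying functions (Bingham, Goldie, Teugels) with real indices
`c_j ∉ {0, 1, 2, …}`, for instance `t ^ (c_j)` plus a combination of lower real powers, let `u_j` be real numbers,
`v_j = c_j + u_j`. The `n` coordinates are `x_k(p) = α_{φ(k)} f_{φ(k)}(p + σ(k)) + P_k(p)`: every function may be
used at fewer than `v_j + 1` different places `p + σ(k)`, provided that the `v_j` are incongruent modulo one; if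
every function is used at most once, it is enough that the `v_j` are distinct (and `v_j > 0`). Let `b` be prime to
`d`, `D` a natural number and `0 < ε ≤ 1 / 2`. There are `κ, δ > 0` such that for all large `Z`, for ALL real `α_j`
with `Z ^ (u_j - δ) ≤ |α_j| ≤ Z ^ (u_j + δ)` and ALL real polynomials `P_k` of degree at most `D`, at least
`Z ^ (1 - ε)` primes `p ≡ b (mod d)` of `(Z, (1 + ε) Z]` are such that for every `j` every integer at distance at
most `κ R(Z)` of `F_j(⌊x_1(p)⌋, …, ⌊x_n(p)⌋)` has a prime factor `≤ Z ^ ε`. So no prime number `> Z ^ ε` is so close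
to any of the values.

Examples: `⌊p ^ a⌋² + ⌊p ^ b⌋³ ⌊p ^ c⌋ + 5 ⌊p ^ c⌋`, discriminants, resultants, any absolutely irreducible polynomial.

`MP_7b323f_nt.PolynomialsAtSmoothValues` (helper542) has this for BALANCED families, for which two classes of
examples are known (weight one, sums of three polynomials in disjoint sets of variables); the exponential sums
(`N542/PC`, `N542/PT/Main`) are used from there. New is the criterion `V7H14/BN/Main` for all noncomposite
polynomials.
-/

namespace Pool.Agent.V7H14.AP.SmoothAtPrimes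

open Finset Filter Topology

/-- the record scale `R(Z) = log Z (log₂ Z)² log₄ Z / (log₃ Z)²` (iterated natural logarithms) -/
noncomputable def R (x : ℝ) : ℝ :=
  Real.log x * (Real.log (Real.log x)) ^ 2 * Real.log (Real.log (Real.log (Real.log x))) /
    (Real.log (Real.log (Real.log x))) ^ 2

/-- Some translate `F - c` is irreducible in `ℂ[x_1, …, x_n]`. -/
def HasIrreducibleTranslate {n : ℕ} (F : MvPolynomial (Fin n) ℤ) : Prop :=
  ∃ c : ℂ, Irreducible (MvPolynomial.map (Int.castRingHom ℂ) F - MvPolynomial.C c)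

/-- `f` is smoothly varying with index `c`: it is positive and has derivatives of every order near
infinity, and `t ^ j f⁽ʲ⁾(t) / f(t)` tends to `c (c - 1) ⋯ (c - j + 1)` for every `j`. -/
def SmoothlyVarying (c : ℝ) (f : ℝ → ℝ) : Prop :=
  (∀ᶠ t in atTop, 0 < f t) ∧
  (∀ j : ℕ, ∀ᶠ t in atTop, DifferentiableAt ℝ (iteratedDeriv j f) t) ∧
  ∀ j : ℕ, Tendsto (fun t => t ^ j * iteratedDeriv j f t / f t) atTop
    (𝓝 (∏ i ∈ range j, (c - i)))

/-- **Record prime gaps around noncomposite polynomials at smooth functions of a prime.** -/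
theorem result {ι : Type} [Finite ι] {r n : ℕ} (hn : 2 ≤ n) (F : ι → MvPolynomial (Fin n) ℤ)
    (hF : ∀ j, HasIrreducibleTranslate (F j))
    (hind : ∀ i j, i ≠ j → ∀ a b c : ℤ,
      MvPolynomial.C a * F i + MvPolynomial.C b * F j = MvPolynomial.C c → a = 0 ∧ b = 0)
    (c u : Fin r → ℝ) (f : Fin r → ℝ → ℝ) (hcn : ∀ j, ∀ n : ℕ, c j ≠ n)
    (hf : ∀ j, SmoothlyVarying (c j) (f j))
    (φ : Fin n → Fin r) (σ : Fin n → ℤ) (hφσ : ∀ k l, φ k = φ l → σ k = σ l → k = l)
    (hφ : ∀ j, ((univ.filter (fun k => φ k = j)).card : ℝ) < c j + u j + 1)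
    (hv : (∀ i j, i ≠ j → ∀ m : ℤ, (c i + u i) - (c j + u j) ≠ m) ∨
      (Function.Injective φ ∧ ∀ i j, i ≠ j → c i + u i ≠ c j + u j))
    (D d b : ℕ) (hd : 0 < d) (hb : b.Coprime d) (ε : ℝ) (hε : 0 < ε) (hε1 : ε ≤ 1 / 2) :
    ∃ κ δ : ℝ, 0 < κ ∧ 0 < δ ∧ ∀ᶠ Z : ℝ in atTop, ∀ (α : Fin r → ℝ) (P : Fin n → Polynomial ℝ),
      (∀ j, Z ^ (u j - δ) ≤ |α j| ∧ |α j| ≤ Z ^ (u j + δ)) → (∀ k, (P k).natDegree ≤ D) →
      ∃ G : Finset ℕ, Z ^ (1 - ε) ≤ (G.card : ℝ) ∧ ∀ p ∈ G, p.Prime ∧ p ≡ b [MOD d] ∧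
        Z < p ∧ (p : ℝ) ≤ (1 + ε) * Z ∧
        ∀ j, ∀ m : ℤ, |(m : ℝ) - (MvPolynomial.eval (fun k =>
            ⌊α (φ k) * f (φ k) ((p : ℝ) + σ k) + (P k).eval (p : ℝ)⌋) (F j) : ℤ)| ≤ κ * R Z →
          ∃ q : ℕ, q.Prime ∧ (q : ℝ) ≤ Z ^ ε ∧ (q : ℤ) ∣ m := by
  have := Fintype.ofFinite ι
  have hcrit : Pool.Agent.N542.PT.Crit n F := by
    obtain ⟨m, rfl⟩ : ∃ m, n = m + 2 := ⟨n - 2, by omega⟩
    exact Pool.Agent.V7H14.BN.crit_n F hF hind
  have hSV : ∀ j, Pool.Agent.N542.PP.SV (c j) (fun k => iteratedDeriv k (f j)) := by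
    intro j
    refine ⟨?_, ?_, ?_⟩
    · simpa only [iteratedDeriv_zero] using (hf j).1
    · intro k
      filter_upwards [(hf j).2.1 k] with t ht
      rw [iteratedDeriv_succ]
      exact ht.hasDerivAt
    · intro k
      have h1 := (hf j).2.2 k
      rw [Pool.Agent.N542.PP.fall]
      simpa only [iteratedDeriv_zero] using h1
  have h := Pool.Agent.N542.PT.transfer (n := n) (by omega) c u (fun j k => iteratedDeriv k (f j)) hSV hcn φ σ hφσ
    hφ hv F hcrit D d b hd hb ε hε hε1
  simp only [iteratedDeriv_zero] at h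
  exact h

/-- `t ^ c` plus a combination of lower real powers is smoothly varying with index `c`. -/
theorem smoothlyVarying_genPoly (c : ℝ) (n : ℕ) (a b : Fin n → ℝ) (hb : ∀ i, b i < c) :
    SmoothlyVarying c (fun t => t ^ c + ∑ i, a i * t ^ b i) :=
  Pool.Agent.N542.PB.genPoly_sv c n a b hb

end Pool.Agent.V7H14.AP.SmoothAtPrimes
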